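import Pool.Agent.Lib.MP_a5a405_co.G.Final

namespace Pool.Agent.FS.H31Q

/-- The equation 2 x - 8 y = w z ^ 3 is partition regular over the positive integers. -/
theorem named (r : ℕ) (χ : ℕ → Fin r) : ∃ x y w z : ℕ, 0 < x ∧ 0 < y ∧ 0 < w ∧ 0 < z ∧
    2 * (x : ℤ) - 8 * y = w * z ^ 3 ∧ χ x = χ z ∧ χ y = χ z ∧ χ w = χ z := by
  obtain ⟨x, y, w, z, κ, h⟩ := Pool.Agent.Lib.MP_a5a405_co.PR.G.suff_pos (ι := Unit) (n := 3)
    (by norm_num) (fun _ => 2) (fun _ => -8) (fun _ => 1) (by simp) (by simp) (by simp)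
    (fun p _ => ⟨-8, ⟨-2, by norm_num⟩, fun _ _ => by norm_num⟩) (q₀ := 2) (by norm_num)
    (fun _ _ => by norm_num) χ
  obtain ⟨h1, h2, h3, h4, h5, h6, h7, h8, h9⟩ := h ()
  exact ⟨_, _, _, _, h1, h2, h3, h4, by linear_combination h5, h6.trans h9.symm,
    h7.trans h9.symm, h8.trans h9.symm⟩

end Pool.Agent.FS.H31Q
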