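import Mathlib

namespace Pool.Agent.FS.H31Q
open Filter

lemma colour {V : ℕ} (hV : 0 < V) : ∃ (r : ℕ) (χ : ℕ → Fin r), ∀ x y : ℕ, 0 < x → 0 < y →
    χ x = χ y → ∃ m : ℤ, |Real.log x - Real.log y - V * m| < 1 / V := by
  have hV2 : 0 < V ^ 2 := by positivity
  refine ⟨V ^ 2, fun x => ⟨⌊V * Real.log x⌋₊ % V ^ 2, Nat.mod_lt _ hV2⟩, fun x y hx hy h => ?_⟩
  have h' : ⌊V * Real.log y⌋₊ ≡ ⌊V * Real.log x⌋₊ [MOD V ^ 2] := (congrArg Fin.val h).symm
  obtain ⟨m, hm⟩ := h'.dvd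
  have hm' : (⌊V * Real.log x⌋₊ : ℝ) - ⌊V * Real.log y⌋₊ = V ^ 2 * m := by exact_mod_cast hm
  have v : (0 : ℝ) < V := Nat.cast_pos.2 hV
  have p1 : 0 ≤ V * Real.log x := mul_nonneg v.le (Real.log_natCast_nonneg x)
  have p2 : 0 ≤ V * Real.log y := mul_nonneg v.le (Real.log_natCast_nonneg y)
  have a1 := Nat.floor_le p1
  have a2 := Nat.lt_floor_add_one (V * Real.log x)
  have a3 := Nat.floor_le p2
  have a4 := Nat.lt_floor_add_one (V * Real.log y)
  refine ⟨m, ?_⟩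
  rw [lt_div_iff₀ v, ← abs_of_pos v, ← abs_mul, abs_of_pos v, abs_lt]
  constructor <;> nlinarith

lemma log_near {t : ℝ} (h : |t| ≤ 1 / 2) : 0 < 1 + t ∧ |Real.log (1 + t)| ≤ 2 * |t| := by
  obtain ⟨h1, h2⟩ := abs_le.1 h
  have p : 0 < 1 + t := by linarith
  refine ⟨p, abs_le.2 ⟨?_, ?_⟩⟩
  · have := Real.one_sub_inv_le_log_of_pos p
    have e : 1 - (1 + t)⁻¹ = t / (1 + t) := by field_simp; ring
    have : -(2 * |t|) ≤ t / (1 + t) := by
      rw [le_div_iff₀ p]
      rcases abs_cases t with ⟨a, b⟩ | ⟨a, b⟩ <;> rw [a] <;> nlinarith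
    linarith
  · have := Real.log_le_sub_one_of_pos p
    have := le_abs_self t
    have := abs_nonneg t
    linarith

/-- one of the three terms dominates -/
lemma dom {a b x y V : ℝ} (ha : a ≠ 0) (hb : b ≠ 0) (hab : a + b ≠ 0) (hx : 0 < x) (hy : 0 < y)
    (hV : 1 ≤ V) {m : ℤ} (h : |Real.log x - Real.log y - V * m| < 1 / V) :
    ∃ s u t : ℝ, (s = a ∨ s = b ∨ s = a + b) ∧ (u = x ∨ u = y) ∧
      |t| ≤ (|b / a| + |a / b| + 2 * |a / (a + b)|) / V ∧ a * x + b * y = s * u * (1 + t) := by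
  have v : 0 < V := by linarith
  have iv : 1 / V ≤ 1 := by rw [div_le_one v]; exact hV
  obtain ⟨h1, h2⟩ := abs_lt.1 h
  have n1 := abs_nonneg (b / a)
  have n2 := abs_nonneg (a / b)
  have n3 := abs_nonneg (a / (a + b))
  have big : ∀ x y : ℝ, 0 < x → 0 < y → V - 1 ≤ Real.log x - Real.log y → y / x ≤ 1 / V := by
    intro x y hx hy h
    rw [← Real.log_div hx.ne' hy.ne'] at h
    have := Real.add_one_le_exp (V - 1)
    have h3 : V ≤ x / y := by
      calc V ≤ Real.exp (V - 1) := by linarith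
        _ ≤ Real.exp (Real.log (x / y)) := Real.exp_le_exp.2 h
        _ = x / y := Real.exp_log (div_pos hx hy)
    rw [div_le_div_iff₀ hx v, one_mul]
    rw [le_div_iff₀ hy] at h3
    linarith
  rcases lt_trichotomy m 0 with hm | rfl | hm
  · have hm' : (m : ℝ) ≤ -1 := by exact_mod_cast Int.le_sub_one_of_lt hm
    have := big y x hy hx (by nlinarith)
    refine ⟨b, y, a / b * (x / y), by simp, by simp, ?_, by field_simp; ring⟩
    rw [abs_mul, abs_of_pos (div_pos hx hy), div_eq_mul_one_div _ V]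
    exact mul_le_mul (by linarith) this (div_pos hx hy).le (by linarith)
  · simp only [Int.cast_zero, mul_zero, sub_zero] at h
    rw [← Real.log_div hx.ne' hy.ne'] at h
    have := Real.abs_exp_sub_one_le (x := Real.log (x / y)) (by linarith)
    rw [Real.exp_log (div_pos hx hy)] at this
    refine ⟨a + b, y, a / (a + b) * (x / y - 1), by simp, by simp, ?_, by field_simp; ring⟩
    rw [abs_mul, div_eq_mul_one_div _ V]
    have i0 : 0 < 1 / V := by positivity
    nlinarith [mul_le_mul_of_nonneg_left (this.trans (by linarith : _ ≤ 2 * (1 / V))) n3]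
  · have hm' : (1 : ℝ) ≤ m := by exact_mod_cast hm
    have := big x y hx hy (by nlinarith)
    refine ⟨a, x, b / a * (y / x), by simp, by simp, ?_, by field_simp⟩
    rw [abs_mul, abs_of_pos (div_pos hy hx), div_eq_mul_one_div _ V]
    exact mul_le_mul (by linarith) this (div_pos hy hx).le (by linarith)

/-- the condition at the real place is necessary over the positive integers -/
theorem real_necessary {ι : Type} [Fintype ι] (n : ℕ) (a b c : ι → ℤ)
    (ha : ∀ i, a i ≠ 0) (hb : ∀ i, b i ≠ 0) (hc : ∀ i, c i ≠ 0) (hab : ∀ i, a i + b i ≠ 0)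
    (h : ∀ (r : ℕ) (χ : ℕ → Fin r), ∃ (x y w z : ι → ℕ) (col : Fin r),
      ∀ i, 0 < x i ∧ 0 < y i ∧ 0 < w i ∧ 0 < z i ∧
        a i * x i + b i * y i = c i * w i * z i ^ n ∧
        χ (x i) = col ∧ χ (y i) = col ∧ χ (w i) = col ∧ χ (z i) = col) :
    ∃ q : ℚ, 0 < q ∧ ∀ i, q = (a i : ℚ) / c i ∨ q = (b i : ℚ) / c i ∨
      q = ((a i : ℚ) + b i) / c i := by
  classical
  rcases isEmpty_or_nonempty ι with hι | ⟨⟨i0⟩⟩
  · exact ⟨1, one_pos, fun i => isEmptyElim i⟩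
  let ρ : ι × Fin 3 → ℚ := fun p => ![(a p.1 : ℚ), b p.1, a p.1 + b p.1] p.2 / c p.1
  let C : ℝ := ∑ i, (|(b i : ℝ) / a i| + |(a i : ℝ) / b i| + 2 * |(a i : ℝ) / (a i + b i)|)
  have hC : ∀ i, |(b i : ℝ) / a i| + |(a i : ℝ) / b i| + 2 * |(a i : ℝ) / (a i + b i)| ≤ C :=
    fun i => Finset.single_le_sum
      (f := fun i => |(b i : ℝ) / a i| + |(a i : ℝ) / b i| + 2 * |(a i : ℝ) / (a i + b i)|)
      (fun i _ => by positivity) (Finset.mem_univ i)
  have C0 : 0 ≤ C := Finset.sum_nonneg fun i _ => by positivity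
  let D : ℝ := 2 * (n + 2) + 4 * C
  have ev : ∀ g : ℝ, ∀ᶠ V : ℕ in atTop, 0 < g → D / V < g ∧ g + D / V < V := by
    intro g
    filter_upwards [tendsto_natCast_atTop_atTop.eventually_gt_atTop (D / g),
      tendsto_natCast_atTop_atTop.eventually_gt_atTop (g + g),
      eventually_gt_atTop 0] with V h1 h2 h3 hg
    have v : (0 : ℝ) < V := Nat.cast_pos.2 h3
    have : D / V < g := by rw [div_lt_iff₀ v]; rw [div_lt_iff₀ hg] at h1; linarith
    exact ⟨this, by linarith⟩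
  obtain ⟨V, hV1, hV2, hV3⟩ := ((eventually_all.2 fun p : (ι × Fin 3) × (ι × Fin 3) =>
    ev |Real.log (ρ p.1) - Real.log (ρ p.2)|).and
    ((tendsto_natCast_atTop_atTop.eventually_ge_atTop (2 * C)).and (eventually_gt_atTop 0))).exists
  have v : (0 : ℝ) < V := Nat.cast_pos.2 hV3
  have v1 : (1 : ℝ) ≤ V := by exact_mod_cast hV3
  obtain ⟨r, χ, hχ⟩ := colour hV3
  obtain ⟨x, y, w, z, col, H⟩ := h r χ
  have one : ∀ i, ∃ j : Fin 3, 0 < ρ (i, j) ∧ ∃ m : ℤ,
      |Real.log (ρ (i, j)) - n * Real.log (z i0) - V * m| ≤ D / 2 / V := by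
    intro i
    obtain ⟨x0, y0, w0, z0, e, c1, c2, c3, c4⟩ := H i
    obtain ⟨-, -, -, z1, -, -, -, -, c5⟩ := H i0
    obtain ⟨m1, hm1⟩ := hχ _ _ x0 y0 (c1.trans c2.symm)
    have xr : (0 : ℝ) < x i := Nat.cast_pos.2 x0
    have yr : (0 : ℝ) < y i := Nat.cast_pos.2 y0
    have wr : (0 : ℝ) < w i := Nat.cast_pos.2 w0
    have zr : (0 : ℝ) < z i := Nat.cast_pos.2 z0
    have cr : (c i : ℝ) ≠ 0 := Int.cast_ne_zero.2 (hc i)
    obtain ⟨s, u, t, hs, hu, ht, e'⟩ := dom (a := a i) (b := b i) (Int.cast_ne_zero.2 (ha i))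
      (Int.cast_ne_zero.2 (hb i)) (by exact_mod_cast hab i) xr yr v1 hm1
    have ht' : |t| ≤ C / V := ht.trans (div_le_div_of_nonneg_right (hC i) v.le)
    obtain ⟨tp, tl⟩ := log_near (t := t) (ht'.trans (by rw [div_le_iff₀ v]; linarith))
    obtain ⟨ur, m2, hm2⟩ : 0 < u ∧ ∃ m : ℤ, |Real.log (w i) - Real.log u - V * m| < 1 / V := by
      rcases hu with rfl | rfl
      · exact ⟨xr, hχ _ _ w0 x0 (c3.trans c1.symm)⟩
      · exact ⟨yr, hχ _ _ w0 y0 (c3.trans c2.symm)⟩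
    obtain ⟨m3, hm3⟩ := hχ _ _ z0 z1 (c4.trans c5.symm)
    obtain ⟨j, hj⟩ : ∃ j : Fin 3, ((ρ (i, j) : ℚ) : ℝ) = s / c i := by
      rcases hs with rfl | rfl | rfl
      · exact ⟨0, by simp [ρ]⟩
      · exact ⟨1, by simp [ρ]⟩
      · exact ⟨2, by simp [ρ]⟩
    have er : (a i : ℝ) * x i + b i * y i = c i * w i * (z i : ℝ) ^ n := by exact_mod_cast e
    have hq : s / c i = w i * (z i : ℝ) ^ n / (u * (1 + t)) := by
      rw [div_eq_div_iff cr (mul_pos ur tp).ne']; linear_combination er - e'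
    refine ⟨j, ?_, m2 + n * m3, ?_⟩
    · have : (0 : ℝ) < ((ρ (i, j) : ℚ) : ℝ) := by rw [hj, hq]; positivity
      exact_mod_cast this
    · rw [hj, hq, Real.log_div (by positivity) (mul_pos ur tp).ne',
        Real.log_mul wr.ne' (by positivity), Real.log_mul ur.ne' tp.ne', Real.log_pow]
      have e1 : Real.log (w i) + n * Real.log (z i) - (Real.log u + Real.log (1 + t)) -
          n * Real.log (z i0) - V * ((m2 + n * m3 : ℤ) : ℝ) =
          (Real.log (w i) - Real.log u - V * m2) +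
            n * (Real.log (z i) - Real.log (z i0) - V * m3) - Real.log (1 + t) := by
        push_cast; ring
      have e2 : D / 2 / V = (n + 2) * (1 / V) + 2 * (C / V) := by simp only [D]; ring
      have n0 : (0 : ℝ) ≤ n := Nat.cast_nonneg n
      have i0' : (0 : ℝ) < 1 / V := by positivity
      obtain ⟨b1, b2⟩ := abs_lt.1 hm2
      obtain ⟨b3, b4⟩ := abs_lt.1 hm3
      obtain ⟨b5, b6⟩ := abs_le.1 tl
      rw [e1, e2, abs_le]
      constructor <;> nlinarith [mul_le_mul_of_nonneg_left b3.le n0,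
        mul_le_mul_of_nonneg_left b4.le n0]
  choose j hj0 m hm using one
  refine ⟨ρ (i0, j i0), hj0 i0, fun i => ?_⟩
  have key : ρ (i0, j i0) = ρ (i, j i) := by
    by_contra hne
    have hl : Real.log (ρ (i0, j i0)) ≠ Real.log (ρ (i, j i)) := fun e => hne (by
      have := Real.log_injOn_pos (Set.mem_Ioi.2 (by exact_mod_cast hj0 i0))
        (Set.mem_Ioi.2 (by exact_mod_cast hj0 i)) e
      exact_mod_cast this)
    obtain ⟨g1, g2⟩ := hV1 ((i0, j i0), (i, j i)) (abs_pos.2 (sub_ne_zero.2 hl))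
    simp only at g1 g2
    obtain ⟨b1, b2⟩ := abs_le.1 (hm i0)
    obtain ⟨b3, b4⟩ := abs_le.1 (hm i)
    have e2 : D / V = D / 2 / V + D / 2 / V := by ring
    rcases lt_trichotomy (m i0) (m i) with h | h | h
    · have : (m i0 : ℝ) + 1 ≤ m i := by exact_mod_cast h
      have := neg_abs_le (Real.log (ρ (i0, j i0)) - Real.log (ρ (i, j i)))
      nlinarith
    · rw [h] at b1 b2
      rcases abs_cases (Real.log (ρ (i0, j i0)) - Real.log (ρ (i, j i))) with ⟨e, -⟩ | ⟨e, -⟩ <;>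
        linarith
    · have : (m i : ℝ) + 1 ≤ m i0 := by exact_mod_cast h
      have := le_abs_self (Real.log (ρ (i0, j i0)) - Real.log (ρ (i, j i)))
      nlinarith
  rw [key]
  generalize j i = t
  fin_cases t <;> simp [ρ]

end Pool.Agent.FS.H31Q
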